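import Pool.Agent.Work.MP_c9932b_sb.Interface

/-!
# Block TREE: the trees of residues exist for small moduli and compute the residues of the run
-/

set_option autoImplicit false

namespace Pool.SBM.helper54

open Pool.SBM

section tree

variable {R : Type} [CommRing R] [LinearOrder R] [IsStrictOrderedRing R]

lemma bt_unique (hdisc : ∀ x : R, 0 < x → 1 ≤ x) {c d i a b : R} (hd : 0 ≤ d) (hi : 0 ≤ i)
    (ha : 0 ≤ a) (hb : 0 ≤ b) (h1 : Bt c d i a) (h2 : Bt c d i b) : a = b := by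
  obtain ⟨ha1, u, _, _, hu⟩ := h1
  obtain ⟨hb1, w, _, _, hw⟩ := h2
  have hm : 0 ≤ (i + 1) * d := by positivity
  rcases lt_trichotomy u w with h | h | h
  · have := hdisc (w - u) (by linarith)
    nlinarith
  · subst h
    linarith
  · have := hdisc (u - w) (by linarith)
    nlinarith

lemma bt_le {c d i a : R} (hd : 0 ≤ d) (hi : 0 ≤ i) (h : Bt c d i a) : a ≤ c := by
  obtain ⟨_, u, hu0, _, hu⟩ := h
  have hm : 0 ≤ (i + 1) * d := by positivity
  nlinarith

lemma bt_nat (E F m : ℕ) :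
    Bt (E : R) (F : R) (m : R) ((E % (1 + (m + 1) * F) : ℕ) : R) := by
  refine ⟨?_, ((E / (1 + (m + 1) * F) : ℕ) : R), Nat.cast_nonneg _, ?_, ?_⟩
  · have h : E % (1 + (m + 1) * F) < 1 + (m + 1) * F := Nat.mod_lt _ (by omega)
    have h2 : E % (1 + (m + 1) * F) ≤ (m + 1) * F := by omega
    exact_mod_cast h2
  · exact_mod_cast Nat.div_le_self _ _
  · have h := Nat.div_add_mod' E (1 + (m + 1) * F)
    have h2 : E = E / (1 + (m + 1) * F) * (1 + (m + 1) * F) + E % (1 + (m + 1) * F) := h.symm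
    exact_mod_cast h2

lemma node_val {q c' d' κ x : R} (h : NodeIs q c' d' κ x) :
    ∃ a u : R, 0 ≤ a ∧ a < q ∧ Bt c' d' κ a ∧ x = q * u + a := by
  obtain ⟨a, ha, _, haq, hb, u, _, _, h1 | h1⟩ := h
  · exact ⟨a, -u, ha, haq, hb, by rw [h1]; ring⟩
  · exact ⟨a, u, ha, haq, hb, by rw [h1]; ring⟩

lemma node_of (hdisc : ∀ x : R, 0 < x → 1 ≤ x) {q c' d' κ x a u : R} (hq : 1 ≤ q) (ha : 0 ≤ a)
    (haq : a < q) (hx : 0 ≤ x) (hb : Bt c' d' κ a) (h : x = q * u + a) :
    NodeIs q c' d' κ x := by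
  have hu : 0 ≤ u := by
    by_contra hneg
    push Not at hneg
    have := hdisc (-u) (by linarith)
    nlinarith
  refine ⟨a, ha, le_of_lt haq, haq, hb, u, hu, ?_, Or.inr (by rw [h]; ring)⟩
  nlinarith

end tree

theorem stmt_TREE (hCRT : Stmt_CRT) (hDIV : Stmt_DIV) (hSTD : Stmt_STD) : Stmt_TREE := by
  intro n pr hWF E F hEF
  obtain ⟨C, hC⟩ := hCRT (6 + n + pr.length)
  refine ⟨C, ?_⟩
  intro R _ _ _ hI P V hP hP0 hP1 hP10 hP11 hV0 hV1 hV2 hV6 hRun hVnn
  have hdisc := hI.disc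
  -- the entries of the program
  have hbt : ∀ (k : ℕ) (hk : k < pr.length),
      Bt (P 0) (P 1) ((k : R) + k + k) ((pr[k]).1 : R) ∧
      Bt (P 0) (P 1) ((k : R) + k + k + 1) ((pr[k]).2.1 : R) ∧
      Bt (P 0) (P 1) ((k : R) + k + k + 1 + 1) ((pr[k]).2.2 : R) := by
    intro k hk
    obtain ⟨e1, e2, e3⟩ := hEF k hk
    have b1 := bt_nat (R := R) E F (3 * k)
    have b2 := bt_nat (R := R) E F (3 * k + 1)
    have b3 := bt_nat (R := R) E F (3 * k + 2)
    have e1' : E % (1 + (3 * k + 1) * F) = (pr[k]).1 := e1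
    have e2' : E % (1 + (3 * k + 1 + 1) * F) = (pr[k]).2.1 := e2
    have e3' : E % (1 + (3 * k + 2 + 1) * F) = (pr[k]).2.2 := e3
    rw [e1'] at b1
    rw [e2'] at b2
    rw [e3'] at b3
    rw [hP0, hP1]
    refine ⟨?_, ?_, ?_⟩
    · have : (k : R) + k + k = ((3 * k : ℕ) : R) := by push_cast; ring
      rw [this]; exact b1
    · have : (k : R) + k + k + 1 = ((3 * k + 1 : ℕ) : R) := by push_cast; ring
      rw [this]; exact b2
    · have : (k : R) + k + k + 1 + 1 = ((3 * k + 2 : ℕ) : R) := by push_cast; ring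
      rw [this]; exact b3
  have hk0 : ∀ k : ℕ, (0 : R) ≤ k := fun k => Nat.cast_nonneg k
  refine ⟨?_, ?_⟩
  · intro q c' d' hq hc hd' hT
    obtain ⟨⟨t0, t1, t2, t3, t4, t5⟩, tin, tpr⟩ := hT
    intro k
    induction k using Nat.strong_induction_on with
    | _ k ih =>
      intro hk
      by_cases h6 : k < 6
      · have base : ∀ κ x : R, κ = (k : R) → x = V k → NodeIs q c' d' κ x →
            ∃ a u : R, 0 ≤ a ∧ a < q ∧ Bt c' d' (k : R) a ∧ V k = q * u + a := by
          intro κ x h1 h2 h3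
          rw [← h1, ← h2]
          exact node_val h3
        have h2 := hV2 0 (by norm_num)
        have h3 := hV2 1 (by norm_num)
        have h4 := hV2 2 (by norm_num)
        have h5 := hV2 3 (by norm_num)
        norm_num at h2 h3 h4 h5
        interval_cases k
        · exact base _ _ (by norm_num) hV0.symm t0
        · exact base _ _ (by norm_num) hV1.symm t1
        · exact base _ _ (by norm_num) h2.symm t2
        · exact base _ _ (by norm_num) h3.symm t3
        · exact base _ _ (by norm_num) h4.symm t4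
        · exact base _ _ (by norm_num) h5.symm t5
      · by_cases hn : k < 6 + n
        · obtain ⟨j, rfl⟩ : ∃ j, k = 6 + j := ⟨k - 6, by omega⟩
          have hj : j < n := by omega
          have hjR : (j : R) < P 10 := by rw [hP10]; exact_mod_cast hj
          obtain ⟨x, hx0, _, hbx, hnode⟩ := tin (j : R) (hk0 j) hjR.le hjR
          obtain ⟨v0, _, hbv⟩ := hV6 j hj
          have hxV : x = V (6 + j) := bt_unique hdisc (hP 21) (hk0 j) hx0 v0 hbx hbv
          have hcast : (1 + 1 + 1 + 1 + 1 + 1 + (j : R)) = ((6 + j : ℕ) : R) := by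
            push_cast; ring
          rw [hcast, hxV] at hnode
          exact node_val hnode
        · obtain ⟨m, rfl⟩ : ∃ m, k = 6 + n + m := ⟨k - (6 + n), by omega⟩
          have hm : m < pr.length := by omega
          have hmR : (m : R) < P 11 := by rw [hP11]; exact_mod_cast hm
          obtain ⟨a, ha0, _, b, hb0, _, e, he0, _, ⟨ba, bb, be⟩, x, hx0, _, y, hy0, _, z, hz0, _,
            ⟨bx, by', bz⟩, hnode⟩ := tpr (m : R) (hk0 m) hmR.le hmR
          obtain ⟨p1, p2, p3⟩ := hbt m hm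
          obtain ⟨w1, w2, w3⟩ := hWF m hm
          have mk := hk0 m
          have ea : a = ((pr[m]).1 : R) :=
            bt_unique hdisc (hP 1) (by linarith) ha0 (hk0 _) ba p1
          have eb : b = ((pr[m]).2.1 : R) :=
            bt_unique hdisc (hP 1) (by linarith) hb0 (hk0 _) bb p2
          have ee : e = ((pr[m]).2.2 : R) :=
            bt_unique hdisc (hP 1) (by linarith) he0 (hk0 _) be p3
          obtain ⟨x', u1, hx0', _, bx', hx⟩ := ih _ w1 (by omega)
          obtain ⟨y', u2, hy0', _, by'', hy⟩ := ih _ w2 (by omega)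
          obtain ⟨z', u3, hz0', _, bz', hz⟩ := ih _ w3 (by omega)
          rw [ea] at bx
          rw [eb] at by'
          rw [ee] at bz
          have exx : x = x' := bt_unique hdisc hd' (hk0 _) hx0 hx0' bx bx'
          have eyy : y = y' := bt_unique hdisc hd' (hk0 _) hy0 hy0' by' by''
          have ezz : z = z' := bt_unique hdisc hd' (hk0 _) hz0 hz0' bz bz'
          have hcast : (1 + 1 + 1 + 1 + 1 + 1 + P 10 + (m : R)) = ((6 + n + m : ℕ) : R) := by
            rw [hP10]; push_cast; ring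
          rw [hcast] at hnode
          obtain ⟨c, u, hc0, hcq, hbc, hval⟩ := node_val hnode
          have hrun := hRun m hm
          refine ⟨c, u + q * u1 * u2 + u1 * y + x * u2 + u3, hc0, hcq, hbc, ?_⟩
          rw [hrun, hx, hy, hz, ← exx, ← eyy, ← ezz]
          linear_combination hval
  · intro q hq
    have hq0 : 0 < q := by linarith
    have hdiv : ∀ k : Fin (6 + n + pr.length), ∃ u a : R,
        0 ≤ a ∧ a < q ∧ V k = q * u + a := by
      intro k
      obtain ⟨u, r, _, _, h3, h4, h5⟩ := hDIV R hI (V k) q (hVnn k k.2) hq0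
      exact ⟨u, r, h3, h4, h5⟩
    choose u a ha0 haq hVa using hdiv
    obtain ⟨c', d', hc0, hd0, hcC, hdC, hB⟩ := hC R hI q a hq (fun j => ⟨ha0 j, haq j⟩)
    refine ⟨c', d', hc0, hd0, hcC, hdC, ?_⟩
    have hnode : ∀ (k : ℕ) (κ : R), k < 6 + n + pr.length → κ = (k : R) →
        NodeIs q c' d' κ (V k) := by
      intro k κ hk hκ
      rw [hκ]
      exact node_of hdisc hq (ha0 ⟨k, hk⟩) (haq ⟨k, hk⟩) (hVnn k hk) (hB ⟨k, hk⟩) (hVa ⟨k, hk⟩)
    have h2 := hV2 0 (by norm_num)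
    have h3 := hV2 1 (by norm_num)
    have h4 := hV2 2 (by norm_num)
    have h5 := hV2 3 (by norm_num)
    norm_num at h2 h3 h4 h5
    refine ⟨⟨?_, ?_, ?_, ?_, ?_, ?_⟩, ?_, ?_⟩
    · have := hnode 0 0 (by omega) (by norm_num)
      rwa [hV0] at this
    · have := hnode 1 1 (by omega) (by norm_num)
      rwa [hV1] at this
    · have := hnode 2 (1 + 1) (by omega) (by norm_num)
      rwa [h2] at this
    · have := hnode 3 (1 + 1 + 1) (by omega) (by norm_num)
      rwa [h3] at this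
    · have := hnode 4 (1 + 1 + 1 + 1) (by omega) (by norm_num)
      rwa [h4] at this
    · have := hnode 5 (1 + 1 + 1 + 1 + 1) (by omega) (by norm_num)
      rwa [h5] at this
    · intro j hj0 hjn hjlt
      rw [hP10] at hjn hjlt
      obtain ⟨j', _, rfl⟩ := hSTD R hdisc n j hj0 hjn
      have hj' : j' < n := by exact_mod_cast hjlt
      obtain ⟨v0, v1, v2⟩ := hV6 j' hj'
      refine ⟨V (6 + j'), v0, v1, v2, ?_⟩
      exact hnode (6 + j') _ (by omega) (by push_cast; ring)
    · intro k hk0' hkn hklt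
      rw [hP11] at hkn hklt
      obtain ⟨m, _, rfl⟩ := hSTD R hdisc pr.length k hk0' hkn
      have hm : m < pr.length := by exact_mod_cast hklt
      obtain ⟨p1, p2, p3⟩ := hbt m hm
      obtain ⟨w1, w2, w3⟩ := hWF m hm
      have mk := hk0 m
      have i1 : (pr[m]).1 < 6 + n + pr.length := by omega
      have i2 : (pr[m]).2.1 < 6 + n + pr.length := by omega
      have i3 : (pr[m]).2.2 < 6 + n + pr.length := by omega
      refine ⟨((pr[m]).1 : R), hk0 _, bt_le (hP 1) (by linarith) p1,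
        ((pr[m]).2.1 : R), hk0 _, bt_le (hP 1) (by linarith) p2,
        ((pr[m]).2.2 : R), hk0 _, bt_le (hP 1) (by linarith) p3, ⟨p1, p2, p3⟩,
        a ⟨_, i1⟩, ha0 _, bt_le hd0 (hk0 _) (hB ⟨_, i1⟩),
        a ⟨_, i2⟩, ha0 _, bt_le hd0 (hk0 _) (hB ⟨_, i2⟩),
        a ⟨_, i3⟩, ha0 _, bt_le hd0 (hk0 _) (hB ⟨_, i3⟩),
        ⟨hB ⟨_, i1⟩, hB ⟨_, i2⟩, hB ⟨_, i3⟩⟩, ?_⟩
      have hcast : (1 + 1 + 1 + 1 + 1 + 1 + P 10 + (m : R)) = ((6 + n + m : ℕ) : R) := by
        rw [hP10]; push_cast; ring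
      rw [hcast]
      have hk : 6 + n + m < 6 + n + pr.length := by omega
      have hrun := hRun m hm
      have e1 := hVa ⟨_, i1⟩
      have e2 := hVa ⟨_, i2⟩
      have e3 := hVa ⟨_, i3⟩
      have e4 := hVa ⟨_, hk⟩
      simp only at e1 e2 e3 e4
      rw [e4, e1, e2, e3] at hrun
      refine node_of (u := u ⟨_, hk⟩ - (q * u ⟨_, i1⟩ * u ⟨_, i2⟩ + u ⟨_, i1⟩ * a ⟨_, i2⟩
        + a ⟨_, i1⟩ * u ⟨_, i2⟩ + u ⟨_, i3⟩)) hdisc hq (ha0 ⟨_, hk⟩) (haq ⟨_, hk⟩) ?_
        (hB ⟨_, hk⟩) ?_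
      · have := mul_nonneg (ha0 ⟨_, i1⟩) (ha0 ⟨_, i2⟩)
        have := ha0 ⟨_, i3⟩
        linarith
      · linear_combination (-1 : R) * hrun

end Pool.SBM.helper54
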