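import Pool.Agent.Work.MP_c9932b_sb.Interface

/-!
# Block EXI: under `BMC` every bounded formula is existential in models of `IΔ₀ + BΣ₁`
-/

set_option autoImplicit false

namespace Pool.SBM.helper54

open Pool.SBM

section cats

variable {R : Type} [Zero R]

lemma ev_lt {n : ℕ} (x : Fin n → R) {i : ℕ} (h : i < n) : ev x i = x ⟨i, h⟩ := by
  simp [ev, h]

lemma ev_ge {n : ℕ} (x : Fin n → R) {i : ℕ} (h : ¬ i < n) : ev x i = 0 := by
  simp [ev, h]

lemma cat_lt {n l : ℕ} (x : Fin n → R) (z : Fin l → R) {i : ℕ} (h : i < n) :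
    cat x z i = x ⟨i, h⟩ := by
  simp [cat, h]

lemma cat_ge {n l : ℕ} (x : Fin n → R) (z : Fin l → R) {i : ℕ} (h : ¬ i < n) :
    cat x z i = ev z (i - n) := by
  simp [cat, h]

lemma cat_add {n l : ℕ} (x : Fin n → R) (z : Fin l → R) (j : ℕ) :
    cat x z (n + j) = ev z j := by
  rw [cat_ge _ _ (by omega)]
  congr 1
  omega

lemma push_ev {n : ℕ} (b : R) (x : Fin n → R) :
    push b (ev x) = ev (Fin.cons b x : Fin (n + 1) → R) := by
  funext i
  cases i with
  | zero => simp [push, ev]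
  | succ i =>
    by_cases h : i < n
    · have h1 : i + 1 < n + 1 := by omega
      rw [ev_lt _ h1]
      change ev x i = _
      rw [ev_lt _ h]
      have : (⟨i + 1, h1⟩ : Fin (n + 1)) = Fin.succ ⟨i, h⟩ := rfl
      rw [this, Fin.cons_succ]
    · rw [ev_ge _ (by omega)]
      change ev x i = _
      rw [ev_ge _ h]

lemma push_cat {n l : ℕ} (b : R) (x : Fin n → R) (z : Fin l → R) :
    push b (cat x z) = cat (Fin.cons b x : Fin (n + 1) → R) z := by
  funext i
  cases i with
  | zero => simp [push, cat]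
  | succ i =>
    by_cases h : i < n
    · have h1 : i + 1 < n + 1 := by omega
      rw [cat_lt _ _ h1]
      change cat x z i = _
      rw [cat_lt _ _ h]
      have : (⟨i + 1, h1⟩ : Fin (n + 1)) = Fin.succ ⟨i, h⟩ := rfl
      rw [this, Fin.cons_succ]
    · rw [cat_ge _ _ (by omega)]
      change cat x z i = _
      rw [cat_ge _ _ h]
      congr 1
      omega

lemma cat_zero {n : ℕ} (x : Fin n → R) (z : Fin 0 → R) : cat x z = ev x := by
  funext i
  by_cases h : i < n
  · rw [cat_lt _ _ h, ev_lt _ h]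
  · rw [cat_ge _ _ h, ev_ge _ (by omega), ev_ge _ h]

end cats

/-- restriction to the first `n` variables -/
def rs (n : ℕ) : ℕ → Tm := fun i => if i < n then Tm.var i else Tm.zero

lemma rs_eval {R : Type} [CommRing R] {n l : ℕ} (x : Fin n → R) (z : Fin l → R) :
    (fun i => (rs n i).eval (cat x z)) = ev x := by
  funext i
  by_cases h : i < n
  · simp only [rs, h, if_true, Tm.eval_var]
    rw [cat_lt _ _ h, ev_lt _ h]
  · simp only [rs, h, if_false, Tm.eval_zero]
    rw [ev_ge _ h]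

lemma rs_term {R : Type} [CommRing R] {n l : ℕ} (x : Fin n → R) (z : Fin l → R) (s : Tm) :
    (s.subst (rs n)).eval (cat x z) = s.eval (ev x) := by
  rw [Tm.eval_subst, rs_eval]

/-- keep the first witnesses -/
def s1 (n l1 : ℕ) : ℕ → Tm := fun i => if i < n + l1 then Tm.var i else Tm.zero

/-- keep the last witnesses -/
def s2 (n l1 : ℕ) : ℕ → Tm := fun i => if i < n then Tm.var i else Tm.var (i + l1)

lemma s1_eval {R : Type} [CommRing R] {n l1 l2 : ℕ} (x : Fin n → R) (z : Fin (l1 + l2) → R) :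
    (fun i => (s1 n l1 i).eval (cat x z)) = cat x (fun i => z (Fin.castAdd l2 i)) := by
  funext i
  by_cases h : i < n + l1
  · simp only [s1, h, if_true, Tm.eval_var]
    by_cases h2 : i < n
    · rw [cat_lt _ _ h2, cat_lt _ _ h2]
    · rw [cat_ge _ _ h2, cat_ge _ _ h2, ev_lt _ (show i - n < l1 + l2 by omega),
        ev_lt _ (show i - n < l1 by omega)]
      rfl
  · simp only [s1, h, if_false, Tm.eval_zero]
    rw [cat_ge _ _ (by omega), ev_ge _ (by omega)]

lemma s2_eval {R : Type} [CommRing R] {n l1 l2 : ℕ} (x : Fin n → R) (z : Fin (l1 + l2) → R) :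
    (fun i => (s2 n l1 i).eval (cat x z)) = cat x (fun i => z (Fin.natAdd l1 i)) := by
  funext i
  by_cases h : i < n
  · simp only [s2, h, if_true, Tm.eval_var]
    rw [cat_lt _ _ h, cat_lt _ _ h]
  · simp only [s2, h, if_false, Tm.eval_var]
    rw [cat_ge _ _ (by omega), cat_ge _ _ h]
    by_cases h2 : i - n < l2
    · rw [ev_lt _ (show i + l1 - n < l1 + l2 by omega), ev_lt _ h2]
      congr 1
      ext
      simp only [Fin.natAdd]
      omega
    · rw [ev_ge _ (by omega), ev_ge _ (by omega)]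

/-- `F` is existential in models of `IΔ₀ + BΣ₁` -/
def IsEx (n : ℕ) (F : ∀ (R : Type) [CommRing R] [LinearOrder R], (Fin n → R) → Prop) : Prop :=
  ∃ (l : ℕ) (χ : Opn),
    ∀ (R : Type) [CommRing R] [LinearOrder R] [IsStrictOrderedRing R], IDelta0 R → BSigma1 R →
    ∀ x : Fin n → R, (∀ i, 0 ≤ x i) →
      (F R x ↔ ∃ z : Fin l → R, (∀ i, 0 ≤ z i) ∧ χ.eval (cat x z))

lemma IsEx.opn (n : ℕ) (φ : Opn) : IsEx n (fun _ _ _ x => φ.eval (ev x)) := by
  refine ⟨0, φ, ?_⟩
  intro R _ _ _ _ _ x hx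
  constructor
  · intro h
    exact ⟨fun i => i.elim0, fun i => i.elim0, by rw [cat_zero]; exact h⟩
  · rintro ⟨z, _, hz⟩
    rw [cat_zero] at hz
    exact hz

lemma IsEx.congr {n : ℕ} {F G : ∀ (R : Type) [CommRing R] [LinearOrder R], (Fin n → R) → Prop}
    (h : IsEx n F) (hFG : ∀ (R : Type) [CommRing R] [LinearOrder R] (x : Fin n → R),
      F R x ↔ G R x) : IsEx n G := by
  obtain ⟨l, χ, hl⟩ := h
  refine ⟨l, χ, ?_⟩
  intro R _ _ _ h1 h2 x hx
  rw [← hFG R x]
  exact hl R h1 h2 x hx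

lemma IsEx.and {n : ℕ} {F G : ∀ (R : Type) [CommRing R] [LinearOrder R], (Fin n → R) → Prop}
    (hF : IsEx n F) (hG : IsEx n G) : IsEx n (fun R _ _ x => F R x ∧ G R x) := by
  obtain ⟨l1, χ1, h1⟩ := hF
  obtain ⟨l2, χ2, h2⟩ := hG
  refine ⟨l1 + l2, .and (χ1.subst (s1 n l1)) (χ2.subst (s2 n l1)), ?_⟩
  intro R _ _ _ hI hB x hx
  beta_reduce
  rw [h1 R hI hB x hx, h2 R hI hB x hx]
  constructor
  · rintro ⟨⟨z1, hz1, hc1⟩, ⟨z2, hz2, hc2⟩⟩
    refine ⟨Fin.append z1 z2, ?_, ?_⟩
    · intro i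
      refine Fin.addCases (fun i => ?_) (fun i => ?_) i
      · rw [Fin.append_left]; exact hz1 i
      · rw [Fin.append_right]; exact hz2 i
    · simp only [Opn.eval_and, Opn.eval_subst, s1_eval, s2_eval, Fin.append_left, Fin.append_right]
      exact ⟨hc1, hc2⟩
  · rintro ⟨z, hz, hc⟩
    simp only [Opn.eval_and, Opn.eval_subst, s1_eval, s2_eval] at hc
    exact ⟨⟨_, fun i => hz _, hc.1⟩, ⟨_, fun i => hz _, hc.2⟩⟩

lemma IsEx.or {n : ℕ} {F G : ∀ (R : Type) [CommRing R] [LinearOrder R], (Fin n → R) → Prop}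
    (hF : IsEx n F) (hG : IsEx n G) : IsEx n (fun R _ _ x => F R x ∨ G R x) := by
  obtain ⟨l1, χ1, h1⟩ := hF
  obtain ⟨l2, χ2, h2⟩ := hG
  refine ⟨l1 + l2, .or (χ1.subst (s1 n l1)) (χ2.subst (s2 n l1)), ?_⟩
  intro R _ _ _ hI hB x hx
  beta_reduce
  rw [h1 R hI hB x hx, h2 R hI hB x hx]
  constructor
  · rintro (⟨z1, hz1, hc1⟩ | ⟨z2, hz2, hc2⟩)
    · refine ⟨Fin.append z1 (fun _ => 0), ?_, ?_⟩
      · intro i
        refine Fin.addCases (fun i => ?_) (fun i => ?_) i
        · rw [Fin.append_left]; exact hz1 i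
        · rw [Fin.append_right]
      · simp only [Opn.eval_or, Opn.eval_subst, s1_eval, s2_eval, Fin.append_left,
          Fin.append_right]
        exact Or.inl hc1
    · refine ⟨Fin.append (fun _ => 0) z2, ?_, ?_⟩
      · intro i
        refine Fin.addCases (fun i => ?_) (fun i => ?_) i
        · rw [Fin.append_left]
        · rw [Fin.append_right]; exact hz2 i
      · simp only [Opn.eval_or, Opn.eval_subst, s1_eval, s2_eval, Fin.append_left,
          Fin.append_right]
        exact Or.inr hc2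
  · rintro ⟨z, hz, hc⟩
    simp only [Opn.eval_or, Opn.eval_subst, s1_eval, s2_eval] at hc
    rcases hc with hc | hc
    · exact Or.inl ⟨_, fun i => hz _, hc⟩
    · exact Or.inr ⟨_, fun i => hz _, hc⟩

/-- substitution used for the universal quantifier -/
def u1 : ℕ → Tm
  | 0 => Tm.var 0
  | i + 1 => Tm.var (i + 2)

def u2 (s : Tm) (n : ℕ) : ℕ → Tm
  | 0 => s.subst (rs n)
  | i + 1 => Tm.var i

def u3 (n : ℕ) : ℕ → Tm
  | 0 => Tm.var n
  | i + 1 => if i < n then Tm.var i else Tm.var (i + 1)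

lemma u1_eval {R : Type} [CommRing R] {n l : ℕ} (y b : R) (x : Fin n → R) (z : Fin l → R) :
    (fun i => (u1 i).eval (push y (cat (Fin.cons b x : Fin (n + 1) → R) z)))
      = cat (Fin.cons y x : Fin (n + 1) → R) z := by
  rw [← push_cat, ← push_cat]
  funext i
  cases i with
  | zero => rfl
  | succ i => rfl

lemma u2_eval {R : Type} [CommRing R] {n l : ℕ} (s : Tm) (x : Fin n → R) (z : Fin l → R) :
    (fun i => (u2 s n i).eval (cat x z))
      = cat (Fin.cons (s.eval (ev x)) x : Fin (n + 1) → R) z := by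
  rw [← push_cat]
  funext i
  cases i with
  | zero => exact rs_term x z s
  | succ i => rfl

lemma u3_eval {R : Type} [CommRing R] {n l : ℕ} (x : Fin n → R) (z : Fin (l + 1) → R) :
    (fun i => (u3 n i).eval (cat x z))
      = cat (Fin.cons (z 0) x : Fin (n + 1) → R) (Fin.tail z) := by
  rw [← push_cat]
  funext i
  cases i with
  | zero =>
    change cat x z n = z 0
    rw [cat_ge _ _ (lt_irrefl n), ev_lt _ (show n - n < l + 1 by omega)]
    congr 1
    ext
    simp
  | succ i =>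
    change (if i < n then Tm.var i else Tm.var (i + 1)).eval (cat x z) = cat x (Fin.tail z) i
    by_cases h : i < n
    · simp only [h, if_true, Tm.eval_var]
      rw [cat_lt _ _ h, cat_lt _ _ h]
    · simp only [h, if_false, Tm.eval_var]
      rw [cat_ge _ _ h, cat_ge _ _ (by omega)]
      by_cases h2 : i - n < l
      · rw [ev_lt _ h2, ev_lt _ (show i + 1 - n < l + 1 by omega)]
        simp only [Fin.tail]
        congr 1
        ext
        simp only [Fin.val_succ]
        omega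
      · rw [ev_ge _ h2, ev_ge _ (by omega)]

lemma IsEx.ball (hB : BMC) (s : Tm) (φ : D0) (n : ℕ)
    (h : IsEx (n + 1) (fun _ _ _ x => φ.eval (ev x))) :
    IsEx n (fun _ _ _ x => (D0.ball s φ).eval (ev x)) := by
  obtain ⟨l, χ, hχ⟩ := h
  obtain ⟨l', θ', hθ⟩ := hB n l (χ.subst u1)
  refine ⟨l', θ'.subst (u2 s n), ?_⟩
  intro R _ _ _ hI hS x hx
  have hs : 0 ≤ s.eval (ev x) := by
    refine Tm.eval_nonneg (fun i => ?_) s
    by_cases hi : i < n
    · rw [ev_lt _ hi]; exact hx _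
    · rw [ev_ge _ hi]
  have hx' : ∀ i, 0 ≤ (Fin.cons (s.eval (ev x)) x : Fin (n + 1) → R) i := by
    intro i
    refine Fin.cases ?_ (fun i => ?_) i
    · exact hs
    · exact hx i
  have key := hθ R hI hS (Fin.cons (s.eval (ev x)) x) hx'
  simp only [Opn.eval_subst, u1_eval, Fin.cons_zero] at key
  simp only [Opn.eval_subst, u2_eval, D0.eval_ball]
  rw [← key]
  refine forall_congr' fun a => forall_congr' fun ha => forall_congr' fun _ => ?_
  rw [push_ev]
  refine hχ R hI hS (Fin.cons a x) ?_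
  intro i
  refine Fin.cases ?_ (fun i => ?_) i
  · exact ha
  · exact hx i

lemma IsEx.bex (s : Tm) (φ : D0) (n : ℕ)
    (h : IsEx (n + 1) (fun _ _ _ x => ¬ φ.eval (ev x))) :
    IsEx n (fun _ _ _ x => ¬ (D0.ball s φ).eval (ev x)) := by
  obtain ⟨l, χ, hχ⟩ := h
  refine ⟨l + 1, .and (.le (.var n) (s.subst (rs n))) (χ.subst (u3 n)), ?_⟩
  intro R _ _ _ hI hS x hx
  have hx' : ∀ a : R, 0 ≤ a → ∀ i, 0 ≤ (Fin.cons a x : Fin (n + 1) → R) i := by
    intro a ha i
    refine Fin.cases ?_ (fun i => ?_) i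
    · exact ha
    · exact hx i
  have hn : ∀ z : Fin (l + 1) → R, cat x z n = z 0 := by
    intro z
    rw [cat_ge _ _ (lt_irrefl n), ev_lt _ (show n - n < l + 1 by omega)]
    congr 1
    ext
    simp
  simp only [D0.eval_ball, Opn.eval_and, Opn.eval_le, Tm.eval_var, rs_term, Opn.eval_subst,
    u3_eval, hn]
  constructor
  · intro h1
    push Not at h1
    obtain ⟨a, ha, has, hna⟩ := h1
    rw [push_ev] at hna
    obtain ⟨z, hz, hc⟩ := (hχ R hI hS (Fin.cons a x) (hx' a ha)).1 hna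
    refine ⟨Fin.cons a z, ?_, ?_, ?_⟩
    · intro i
      refine Fin.cases ?_ (fun i => ?_) i
      · exact ha
      · exact hz i
    · rw [Fin.cons_zero]; exact has
    · rw [Fin.cons_zero, Fin.tail_cons]; exact hc
  · rintro ⟨z, hz, hs, hc⟩ hall
    have h2 := hall (z 0) (hz 0) hs
    rw [push_ev] at h2
    exact (hχ R hI hS (Fin.cons (z 0) x) (hx' _ (hz 0))).2 ⟨Fin.tail z, fun i => hz _, hc⟩ h2

theorem isEx_all (hB : BMC) (φ : D0) : ∀ n : ℕ,
    IsEx n (fun _ _ _ x => φ.eval (ev x)) ∧ IsEx n (fun _ _ _ x => ¬ φ.eval (ev x)) := by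
  induction φ with
  | opn φ =>
    intro n
    exact ⟨IsEx.opn n φ, IsEx.opn n (.neg φ)⟩
  | neg φ ih =>
    intro n
    refine ⟨(ih n).2, (ih n).1.congr ?_⟩
    intro R _ _ x
    simp
  | and φ ψ h1 h2 =>
    intro n
    refine ⟨(h1 n).1.and (h2 n).1, ((h1 n).2.or (h2 n).2).congr ?_⟩
    intro R _ _ x
    simp only [D0.eval_and]
    tauto
  | ball s φ ih =>
    intro n
    exact ⟨IsEx.ball hB s φ n (ih (n + 1)).1, IsEx.bex s φ n (ih (n + 1)).2⟩

theorem stmt_EXI : Stmt_EXI := by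
  intro hB φ n
  exact (isEx_all hB φ n).1

end Pool.SBM.helper54
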